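import Pool.Agent.Lib.MP_8dbd20_lc.Ab.Spec

/-! # MP_8dbd20_lc, block Ab: `S_Ab0`, every generic filter over a countable model works -/

namespace B8d

open Pool.Agent.Lib.Z2 (Str Dfn DF Fm IsZ2 IsBeta HasAC HasPi12DC Node inn Cond IsI NT NN gen Uni Gen sg tr)

theorem pAb0 (br8 : S_Br8) (univ : S_Univ) (fi3 : S_Fi3) (fi8 : S_Fi8) (fi9 : S_Fi9)
    (fi10 : S_Fi10) (be8 : S_Be8) (zZ2 : Pool.Agent.Lib.Z2.S_Z2)
    (zAc : Pool.Agent.Lib.Z2.S_Ac) : S_Ab0 := by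
  intro hU M hcnt hM2 G hG
  have hu : Univ M (UM M) (CM M) := univ M hM2
  have huc : (UM M).Countable := hcnt.mono hu.um
  have huni : Uni (SU (UM M) (CM M)) Gam := fi9 M (UM M) (CM M) hu huc
  have hgood : GoodS (SU (UM M) (CM M)) := hu.good
  have hedges : Edges (UM M) (CM M) G := hU M (UM M) (CM M) G hu huni hG
  have hsit : Sit M (UM M) (CM M) G := ⟨hu, huni, hG, hedges⟩
  have hkh : KH M (UM M) (CM M) (NN (SU (UM M) (CM M)) G) := fi3 M _ _ G hsit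
  have hNne : (NN (SU (UM M) (CM M)) G).Nonempty := hkh.2.2.1.1
  refine ⟨hNne, zZ2 _ Gam huni G hG, zAc _ Gam huni G hG, fi8 M _ _ G hsit, ?_, ?_⟩
  · intro hb
    have h1 : BetaI M := (br8 M hM2.1).2.1 hb
    exact (br8 _ hNne).2.2 (be8 M _ _ _ hkh h1)
  · exact fi10 M _ _ G hsit

end B8d
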