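import Pool.Agent.Lib.MP_8dbd20_lc.Ab.Spec

/-! # MP_8dbd20_lc, block Ab: `S_Ab1`, definable relations are rows of the truth set -/

namespace B8d

open Pool.Agent.Lib.Z2 (Str Dfn DF)

private theorem ix_zero (E : Set ℕ) : ix E 0 = ∅ := by
  ext m
  simp [ix]

private theorem ix_succ (E : Set ℕ) (a : ℕ) : ix E (a + 1) = sec E a := by
  ext m
  simp [ix]

private theorem ck_eq {U C : Set (Set ℕ)} {E : Set ℕ} (hCU : C ⊆ U) (hE : Secs E = U) :
    CK E (Kof C E) = C := by
  ext X
  constructor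
  · rintro ⟨a, ha, rfl⟩
    exact ha
  · intro hX
    have h := hCU hX
    rw [← hE] at h
    obtain ⟨a, rfl⟩ := h
    exact ⟨a, hX, rfl⟩

private theorem dk_iff {U C : Set (Set ℕ)} {E : Set ℕ} (hCU : C ⊆ U) (hE : Secs E = U)
    (k a n b : ℕ) : Dk (Tru E (Kof C E)) k a n b ↔
      eval U C (dec k) (nc n fun _ => 0) (sc (sec E b) (sc (sec E a) fun _ => ∅)) := by
  have h1 : (fun i => get i (Nat.pair n 0)) = nc n fun _ => 0 := by
    funext i
    rcases i with _ | i
    · rw [get_zero_pair, nc_zero]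
    · rw [get_succ_pair, get_of_zero, nc_succ]
  have h2 : (fun j => ix E (get j (Nat.pair (b + 1) (Nat.pair (a + 1) 0)))) =
      sc (sec E b) (sc (sec E a) fun _ => ∅) := by
    funext j
    rcases j with _ | _ | j
    · rw [get_zero_pair, ix_succ, sc_zero]
    · rw [get_succ_pair, get_zero_pair, ix_succ, sc_succ, sc_zero]
    · rw [get_succ_pair, get_succ_pair, get_of_zero, ix_zero, sc_succ, sc_succ]
  rw [← h1, ← h2]
  change eval (Secs E) (CK E (Kof C E)) (dec (Nat.pair k _).unpair.1)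
    (fun i => get i (Nat.pair k (Nat.pair (Nat.pair n 0) (Nat.pair (b + 1)
      (Nat.pair (a + 1) 0)))).unpair.2.unpair.1)
    (fun j => ix E (get j (Nat.pair k (Nat.pair (Nat.pair n 0) (Nat.pair (b + 1)
      (Nat.pair (a + 1) 0)))).unpair.2.unpair.2)) ↔ _
  rw [ck_eq hCU hE, hE]
  simp only [Nat.unpair_pair]

theorem pAb1 (t1 : S_T1) (br3 : S_Br3) (br6 : S_Br6) : S_Ab1 := by
  intro U C E hG hS hE
  refine ⟨?_, ?_⟩
  · intro P hP
    obtain ⟨ψ, A, hA, hψ⟩ := (br6 U C hG).2.1 P hP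
    rw [← hE] at hA
    obtain ⟨a, rfl⟩ := hA
    obtain ⟨k, hk⟩ := t1 (ψ.ren id (fun j => if j = 0 then 0 else 1))
    refine ⟨k, a, fun n b => ?_⟩
    rw [dk_iff hG.1 hE, hk, eval_ren, hψ n (sec E b) (by rw [← hE]; exact ⟨b, rfl⟩)]
    have h1 : (fun i => (nc n fun _ => 0) (id i)) = nc n fun _ => 0 := rfl
    have h2 : (fun j => (sc (sec E b) (sc (sec E a) fun _ => ∅)) (if j = 0 then 0 else 1)) =
        sc (sec E b) fun _ => sec E a := by
      funext j
      rcases j with _ | j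
      · rfl
      · rfl
    rw [h1, h2]
  · intro k a
    refine ⟨fun n X => eval U C (dec k) (nc n fun _ => 0) (sc X (sc (sec E a) fun _ => ∅)),
      ?_, fun n b => (dk_iff hG.1 hE k a n b).symm⟩
    have ha : sec E a ∈ (SU U C).Pm := by
      change sec E a ∈ U
      rw [← hE]
      exact ⟨a, rfl⟩
    refine br3 (SU U C) (dec k) (α := ℕ × Set ℕ) (fun x => nc x.1 fun _ => 0)
      (fun x => sc x.2 (sc (sec E a) fun _ => ∅)) ?_ ?_
    · intro i
      rcases i with _ | i
      · exact DF.fst DF.id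
      · exact DF.constN 0
    · intro j
      rcases j with _ | _ | j
      · exact DF.snd DF.id
      · exact DF.constR ha
      · exact DF.constR hS.pe

end B8d
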