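import Pool.Agent.Lib.MP_8dbd20_lc.Ab.Spec

/-! # MP_8dbd20_lc, block Ab: `S_Ab2`, the generic condition is arithmetical -/

namespace B8d

open Pool.Agent.Lib.Z2 (jn)

private theorem as_jn {s t : (ℕ → ℕ) → (ℕ → Set ℕ) → Set ℕ} (hs : AS s) (ht : AS t) :
    AS (fun v V => jn (s v V) (t v V)) := by
  have hs1 : Ar (fun v V => v 0 / 2 ∈ s (fun i => v (i + 1)) V) :=
    Ar.mem (AN.div (AN.var 0) (AN.const 2)) (hs.ren (fun i => i + 1) (fun j => j))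
  have ht1 : Ar (fun v V => v 0 / 2 ∈ t (fun i => v (i + 1)) V) :=
    Ar.mem (AN.div (AN.var 0) (AN.const 2)) (ht.ren (fun i => i + 1) (fun j => j))
  have hp : Ar (fun v _ => v 0 % 2 = 0) := Ar.eqN (AN.mod (AN.var 0) (AN.const 2)) AN.zero
  refine Ar.congr ((hp.and hs1).or (hp.not.and ht1)) fun v V => ?_
  simp only [jn, Set.mem_ofPred_eq]
  by_cases h : v 0 % 2 = 0
  · simp [h]
  · simp [h]

private theorem ar_dk {T : (ℕ → ℕ) → (ℕ → Set ℕ) → Set ℕ}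
    {k a n b : (ℕ → ℕ) → (ℕ → Set ℕ) → ℕ} (hT : AS T) (hk : AN k) (ha : AN a) (hn : AN n)
    (hb : AN b) : Ar (fun v V => Dk (T v V) (k v V) (a v V) (n v V) (b v V)) :=
  Ar.mem (AN.pair hk (AN.pair (AN.pair hn (AN.const 0)) (AN.pair (AN.add hb (AN.const 1))
    (AN.pair (AN.add ha (AN.const 1)) (AN.const 0))))) hT

private theorem ar_cnd {T : (ℕ → ℕ) → (ℕ → Set ℕ) → Set ℕ}
    {k a q : (ℕ → ℕ) → (ℕ → Set ℕ) → ℕ} (hT : AS T) (hk : AN k) (ha : AN a) (hq : AN q) :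
    Ar (fun v V => cnd (T v V) (k v V) (a v V) (q v V)) :=
  ar_dk hT hk ha (AN.fst hq) (AN.snd hq)

private theorem ar_lec {E T : (ℕ → ℕ) → (ℕ → Set ℕ) → Set ℕ}
    {k a q q' : (ℕ → ℕ) → (ℕ → Set ℕ) → ℕ} (hE : AS E) (hT : AS T) (hk : AN k) (ha : AN a)
    (hq : AN q) (hq' : AN q') :
    Ar (fun v V => lec (E v V) (T v V) (k v V) (a v V) (q v V) (q' v V)) := by
  have sN : ∀ {f : (ℕ → ℕ) → (ℕ → Set ℕ) → ℕ}, AN f → AN (fun v V => f (fun i => v (i + 1)) V) :=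
    fun h => h.ren (fun i => i + 1) (fun j => j)
  have sS : ∀ {f : (ℕ → ℕ) → (ℕ → Set ℕ) → Set ℕ}, AS f →
      AS (fun v V => f (fun i => v (i + 1)) V) :=
    fun h => h.ren (fun i => i + 1) (fun j => j)
  refine Ar.exN (R := fun b v V => sec (E v V) b = jn (sec (E v V) (q v V).unpair.2)
    (sec (E v V) (q' v V).unpair.2) ∧
    Dk (T v V) (k v V) (a v V) (Nat.pair (q v V).unpair.1 (q' v V).unpair.1) b) ?_
  exact (Ar.eqS (AS.sec (sS hE) (AN.var 0)) (as_jn (AS.sec (sS hE) (AN.snd (sN hq)))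
    (AS.sec (sS hE) (AN.snd (sN hq'))))).and
    (ar_dk (sS hT) (sN hk) (sN ha) (AN.pair (AN.fst (sN hq)) (AN.fst (sN hq'))) (AN.var 0))

attribute [local aesop safe apply (transparency := reducible)] as_jn ar_dk ar_cnd ar_lec

theorem pAb2 : S_Ab2 := by
  unfold S_Ab2 GnA
  aesop (config := { enableSimp := false })

end B8d
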