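import Pool.Agent.Lib.MP_8dbd20_lc.Ab.Spec

/-!
# MP_8dbd20_lc, `Ab/Ab3`: coded generic filters
-/

set_option linter.unusedVariables false

namespace B8d

open Pool.Agent.Lib.Z2 (Str Dfn DF Fm IsZ2 IsBeta HasAC HasPi12DC Node inn Cond IsI NT NN gen Uni Gen
  sg tr Shp num re vl jn Nm evl IsCond Le cdc Ent)

private theorem Ab3_uniq {U : Set (Set ℕ)} {E : Set ℕ} {q : ℕ} {p p' : Cond}
    (h : CCd U E q p) (h' : CCd U E q p') : p = p' :=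
  Shp.inj _ _ (h.2.1.trans h'.2.1.symm) (h.2.2.trans h'.2.2.symm)

private theorem Ab3_dCnd (S : Str) [Pool.Agent.Lib.Z2.Good S] (zIc : Pool.Agent.Lib.Z2.S_Ic) :
    Dfn S (fun x : ℕ × Set ℕ => ∃ p : Cond, vl S.U p ∧
      (IsCond S p ∧ num p = x.1 ∧ re p = x.2)) := by
  refine Dfn.exV (P := fun (x : ℕ × Set ℕ) (p : Cond) => IsCond S p ∧ num p = x.1 ∧ re p = x.2) ?_
  have h1 : DF S (fun y : (ℕ × Set ℕ) × Cond => y.2) := DF.snd DF.id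
  refine Dfn.and (zIc S _ _ h1).2.2.2.2 (Dfn.and ?_ ?_)
  · exact Dfn.eq (DF.num h1) (DF.fst (DF.fst DF.id))
  · exact Dfn.eq (DF.re h1) (DF.snd (DF.fst DF.id))

private theorem Ab3_dLe (S : Str) [Pool.Agent.Lib.Z2.Good S] (zLe : Pool.Agent.Lib.Z2.S_Le)
    (hG : DF S Gam) :
    Dfn S (fun x : ℕ × Set ℕ => ∃ y : Cond × Cond, vl S.U y ∧
      (Le Gam y.1 y.2 ∧ x.1 = Nat.pair (num y.1) (num y.2) ∧ x.2 = jn (re y.1) (re y.2))) := by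
  refine Dfn.exV (P := fun (x : ℕ × Set ℕ) (y : Cond × Cond) =>
    Le Gam y.1 y.2 ∧ x.1 = Nat.pair (num y.1) (num y.2) ∧ x.2 = jn (re y.1) (re y.2)) ?_
  have h1 : DF S (fun y : (ℕ × Set ℕ) × (Cond × Cond) => y.2.1) := DF.fst (DF.snd DF.id)
  have h2 : DF S (fun y : (ℕ × Set ℕ) × (Cond × Cond) => y.2.2) := DF.snd (DF.snd DF.id)
  refine Dfn.and (zLe S Gam _ _ _ hG h1 h2) (Dfn.and ?_ ?_)
  · exact Dfn.eq (DF.fst (DF.fst DF.id)) (DF.natPair (DF.num h1) (DF.num h2))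
  · exact Dfn.eq (DF.snd (DF.fst DF.id)) (DF.jn (DF.re h1) (DF.re h2))

private theorem Ab3_dD (S : Str) [Pool.Agent.Lib.Z2.Good S] {D : Cond → Prop} (hD : Dfn S D) :
    Dfn S (fun x : ℕ × Set ℕ => ∃ p : Cond, vl S.U p ∧
      (D p ∧ num p = x.1 ∧ re p = x.2)) := by
  refine Dfn.exV (P := fun (x : ℕ × Set ℕ) (p : Cond) => D p ∧ num p = x.1 ∧ re p = x.2) ?_
  have h1 : DF S (fun y : (ℕ × Set ℕ) × Cond => y.2) := DF.snd DF.id
  refine Dfn.and (hD.comp h1) (Dfn.and ?_ ?_)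
  · exact Dfn.eq (DF.num h1) (DF.fst (DF.fst DF.id))
  · exact Dfn.eq (DF.re h1) (DF.snd (DF.fst DF.id))

private theorem Ab3_dP (S : Str) [Pool.Agent.Lib.Z2.Good S] {P : ℕ → Set ℕ → Prop}
    (hP : Dfn S (fun x : ℕ × Set ℕ => P x.1 x.2)) :
    Dfn S (fun p : Cond => P (num p) (re p)) :=
  Dfn.comp₂ (R := P) hP (DF.num DF.id) (DF.re DF.id)

theorem pAb3 (ab1 : S_Ab1) (zIc : Pool.Agent.Lib.Z2.S_Ic) (zLe : Pool.Agent.Lib.Z2.S_Le) :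
    S_Ab3 := by
  intro U C E hg hgs hGam hE
  obtain ⟨a1, a2⟩ := ab1 U C E hg hgs hE
  generalize Tru E (Kof C E) = T at a1 a2 ⊢
  have hval : ∀ p : Cond, IsCond (SU U C) p → vl U p := by
    rintro p ⟨-, -, h⟩
    exact ⟨Pool.Agent.Lib.Z2.PShp.vl_all _ _, fun X hX => hg.1 (h X hX)⟩
  have hcode : ∀ p : Cond, vl U p → ∃ q, CCd U E q p := by
    intro p hp
    have h1 : re p ∈ U := Shp.re_mem (SU U C) p hp
    rw [← hE] at h1
    obtain ⟨b, hb⟩ := h1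
    refine ⟨Nat.pair (num p) b, hp, ?_, ?_⟩
    · rw [Nat.unpair_pair]
    · rw [Nat.unpair_pair]; exact hb
  obtain ⟨kc, ac, hc⟩ := a1 (fun n X => ∃ p : Cond, vl U p ∧
    (IsCond (SU U C) p ∧ num p = n ∧ re p = X)) (Ab3_dCnd (SU U C) zIc)
  obtain ⟨kl, al, hl⟩ := a1 (fun n X => ∃ y : Cond × Cond, vl U y ∧
    (Le Gam y.1 y.2 ∧ n = Nat.pair (num y.1) (num y.2) ∧ X = jn (re y.1) (re y.2)))
    (Ab3_dLe (SU U C) zLe hGam)
  have hcnd : ∀ q, cnd T kc ac q ↔ ∃ p, CCd U E q p ∧ IsCond (SU U C) p := by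
    intro q
    unfold cnd
    rw [← hc]
    constructor
    · rintro ⟨p, h1, h2, h3, h4⟩
      exact ⟨p, ⟨h1, h3, h4⟩, h2⟩
    · rintro ⟨p, ⟨h1, h3, h4⟩, h2⟩
      exact ⟨p, h1, h2, h3, h4⟩
  have hlec : ∀ q q' p p', CCd U E q p → CCd U E q' p' →
      (lec E T kl al q q' ↔ Le Gam p p') := by
    intro q q' p p' h h'
    unfold lec
    constructor
    · rintro ⟨b, hb, hD⟩
      rw [← hl] at hD
      obtain ⟨⟨y, y'⟩, hy, hLe, h1, h2⟩ := hD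
      rw [Nat.pair_eq_pair] at h1
      rw [hb] at h2
      obtain ⟨h3, h4⟩ := Pool.Agent.Lib.Z2.jn_inj h2
      have e1 : p = y := Shp.inj _ _ (h.2.1.trans h1.1) (h.2.2.trans h3)
      have e2 : p' = y' := Shp.inj _ _ (h'.2.1.trans h1.2) (h'.2.2.trans h4)
      rw [e1, e2]
      exact hLe
    · intro hLe
      have h1 : jn (re p) (re p') ∈ U := hgs.uj _ (Shp.re_mem (SU U C) p h.1) _
        (Shp.re_mem (SU U C) p' h'.1)
      rw [← hE] at h1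
      obtain ⟨b, hb⟩ := h1
      refine ⟨b, ?_, ?_⟩
      · rw [← hb, h.2.2, h'.2.2]
      · rw [← hl]
        refine ⟨(p, p'), ⟨h.1, h'.1⟩, hLe, ?_, hb.symm⟩
        rw [← h.2.1, ← h'.2.1]
  refine ⟨kc, ac, kl, al, ?_, ?_⟩
  · rintro g ⟨g1, g2, g3, g4⟩
    have hex : ∀ q ∈ g, ∃ p, CCd U E q p ∧ IsCond (SU U C) p := fun q hq => (hcnd q).1 (g1 q hq)
    refine ⟨?_, ?_, ?_, ?_⟩
    · rintro p ⟨q, hq, hqp⟩
      obtain ⟨p', h1, h2⟩ := hex q hq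
      rw [Ab3_uniq hqp h1]
      exact h2
    · rintro p p' ⟨q, hq, hqp⟩ hp' hle
      obtain ⟨q', hq'⟩ := hcode p' (hval p' hp')
      exact ⟨q', g2 q hq q' ((hcnd q').2 ⟨p', hq', hp'⟩) ((hlec q q' p p' hqp hq').2 hle), hq'⟩
    · rintro p p' ⟨q, hq, hqp⟩ ⟨q', hq', hqp'⟩
      obtain ⟨r, hr, hr1, hr2⟩ := g3 q hq q' hq'
      obtain ⟨x, hx, -⟩ := hex r hr
      exact ⟨x, ⟨r, hr, hx⟩, (hlec r q x p hx hqp).1 hr1, (hlec r q' x p' hx hqp').1 hr2⟩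
    · intro D hD hdense
      obtain ⟨k, a, hk⟩ := a1 (fun n X => ∃ p : Cond, vl U p ∧ (D p ∧ num p = n ∧ re p = X))
        (Ab3_dD (SU U C) hD)
      have hk' : ∀ q p, CCd U E q p → (D p ↔ Dk T k a q.unpair.1 q.unpair.2) := by
        intro q p hqp
        rw [← hk]
        constructor
        · intro h
          exact ⟨p, hqp.1, h, hqp.2.1, hqp.2.2⟩
        · rintro ⟨p', h1, h2, h3, h4⟩
          rw [Ab3_uniq hqp ⟨h1, h3, h4⟩]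
          exact h2
      obtain ⟨q, hq, hqD⟩ := g4 k a (by
        intro q hq
        obtain ⟨p, hqp, hp⟩ := (hcnd q).1 hq
        obtain ⟨p', h1, h2, h3⟩ := hdense p hp
        obtain ⟨q', hq'⟩ := hcode p' (hval p' h1)
        exact ⟨q', (hcnd q').2 ⟨p', hq', h1⟩, (hlec q' q p' p hq' hqp).2 h2,
          (hk' q' p' hq').1 h3⟩)
      obtain ⟨p, hqp, -⟩ := hex q hq
      exact ⟨p, ⟨q, hq, hqp⟩, (hk' q p hqp).2 hqD⟩
  · intro G hG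
    refine ⟨?_, ?_, ?_, ?_⟩
    · rintro q ⟨p, hqp, hp⟩
      exact (hcnd q).2 ⟨p, hqp, hG.cond p hp⟩
    · rintro q ⟨p, hqp, hp⟩ q' hq' hle
      obtain ⟨p', hqp', hp'⟩ := (hcnd q').1 hq'
      exact ⟨p', hqp', hG.up p p' hp hp' ((hlec q q' p p' hqp hqp').1 hle)⟩
    · rintro q ⟨p, hqp, hp⟩ q' ⟨p', hqp', hp'⟩
      obtain ⟨x, hx, h1, h2⟩ := hG.dir p p' hp hp'
      obtain ⟨r, hr⟩ := hcode x (hval x (hG.cond x hx))
      exact ⟨r, ⟨x, hr, hx⟩, (hlec r q x p hr hqp).2 h1, (hlec r q' x p' hr hqp').2 h2⟩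
    · intro k a hdense
      obtain ⟨P, hP, hPk⟩ := a2 k a
      have hk' : ∀ q p, CCd U E q p → (P (num p) (re p) ↔ Dk T k a q.unpair.1 q.unpair.2) := by
        intro q p hqp
        rw [← hPk, hqp.2.1, hqp.2.2]
      obtain ⟨p, hp, hD⟩ := hG.meet (fun p => P (num p) (re p)) (Ab3_dP (SU U C) hP) (by
        intro p hp
        obtain ⟨q, hq⟩ := hcode p (hval p hp)
        obtain ⟨q', h1, h2, h3⟩ := hdense q ((hcnd q).2 ⟨p, hq, hp⟩)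
        obtain ⟨p', h4, h5⟩ := (hcnd q').1 h1
        exact ⟨p', h5, (hlec q' q p' p h4 hq).1 h2, (hk' q' p' h4).2 h3⟩)
      obtain ⟨q, hq⟩ := hcode p (hval p (hG.cond p hp))
      exact ⟨q, ⟨p, hq, hp⟩, (hk' q p hq).1 hD⟩

end B8d
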