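import Pool.Agent.Lib.MP_8dbd20_lc.Ab.Spec

/-! # MP_8dbd20_lc, block Ab: `S_Ab4`, closure properties of β-models -/

namespace B8d

theorem pAb4 (t5 : S_T5) : S_Ab4 := by
  intro K hne hK
  refine ⟨?_, ?_⟩
  · intro R hR v V hV
    have h1 : Ar (fun v V => v 0 ∈ V 0 ↔ R v (fun j => V (j + 1))) :=
      (Ar.mem (AN.var 0) (AS.var 0)).iff (hR.ren (fun i => i) (fun j => j + 1))
    have h2 : Ar (fun v V => ∀ n, (n ∈ V 0 ↔ R (nc n v) (fun j => V (j + 1)))) := by
      refine Ar.allN (R := fun n v V => n ∈ V 0 ↔ R (nc n v) (fun j => V (j + 1))) ?_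
      refine h1.congr fun v V => ?_
      rw [nc_eta]
    obtain ⟨X, hX, h⟩ := hK _ h2 v V hV ⟨{n | R (nc n v) V}, fun n => Iff.rfl⟩
    have h3 : {n | R (nc n v) V} = X := by
      ext n
      exact (h n).symm
    rw [h3]
    exact hX
  · intro E hE K' hK'
    obtain ⟨X, hX, h⟩ := hK _ t5.1 (fun _ => 0) (sc E (fun _ => K')) (by
      intro i
      rcases i with _ | i
      · exact hE
      · exact hK') ⟨Tru E K', rfl⟩
    have h3 : X = Tru E K' := h
    rw [← h3]
    exact hX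

end B8d
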