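import Pool.Agent.Lib.MP_8dbd20_lc.Ab.Spec

/-! # MP_8dbd20_lc, block Ab: `S_Ab5`, the universe of the coded model is coded -/

namespace B8d

private theorem ix_zero (E : Set ℕ) : ix E 0 = ∅ := by
  ext m
  simp [ix]

private theorem ix_succ (E : Set ℕ) (a : ℕ) : ix E (a + 1) = sec E a := by
  ext m
  simp [ix]

private theorem ck_empty (E : Set ℕ) : CK E ∅ = ∅ := by
  ext X
  simp [CK]

private theorem empty_mem {K : Set (Set ℕ)} (hK : ArClosed K) (hne : K.Nonempty) :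
    (∅ : Set ℕ) ∈ K := by
  obtain ⟨X, hX⟩ := hne
  exact AS.closed AS.empty hK (fun _ => 0) (fun _ => X) (fun _ => hX)

/-- row of the truth set for a formula with one set variable -/
private def Rw (T : Set ℕ) (k a : ℕ) : Prop :=
  Nat.pair k (Nat.pair 0 (Nat.pair (a + 1) 0)) ∈ T

private theorem row (t1 : S_T1) (E : Set ℕ) (h0 : ∅ ∈ Secs E) (P : Set ℕ → Prop) (ψ : F)
    (hψ : ∀ (v : ℕ → ℕ) (V : ℕ → Set ℕ), (∀ i, V i ∈ Secs E) →
      (P (V 0) ↔ eval (Secs E) ∅ ψ v V)) :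
    ∃ k, ∀ a, (P (sec E a) ↔ Rw (Tru E ∅) k a) := by
  obtain ⟨k, hk⟩ := t1 ψ
  refine ⟨k, fun a => ?_⟩
  have hV : ∀ i, (fun j => ix E (get j (Nat.pair (a + 1) 0))) i ∈ Secs E := by
    intro i
    rcases i with _ | i
    · change ix E (get 0 (Nat.pair (a + 1) 0)) ∈ Secs E
      rw [get_zero_pair, ix_succ]
      exact ⟨a, rfl⟩
    · change ix E (get (i + 1) (Nat.pair (a + 1) 0)) ∈ Secs E
      rw [get_succ_pair, get_of_zero, ix_zero]
      exact h0
  have h := hψ (fun i => get i 0) (fun j => ix E (get j (Nat.pair (a + 1) 0))) hV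
  have h1 : ix E (get 0 (Nat.pair (a + 1) 0)) = sec E a := by
    rw [get_zero_pair, ix_succ]
  have h2 : P (ix E (get 0 (Nat.pair (a + 1) 0))) ↔ eval (Secs E) ∅ ψ (fun i => get i 0)
    (fun j => ix E (get j (Nat.pair (a + 1) 0))) := h
  rw [h1] at h2
  clear h
  rename _ => h
  rw [h]
  change _ ↔ eval (Secs E) (CK E ∅) (dec (Nat.pair k _).unpair.1)
    (fun i => get i (Nat.pair k (Nat.pair 0 (Nat.pair (a + 1) 0))).unpair.2.unpair.1)
    (fun j => ix E (get j (Nat.pair k (Nat.pair 0 (Nat.pair (a + 1) 0))).unpair.2.unpair.2))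
  rw [ck_empty]
  simp only [Nat.unpair_pair, hk]

theorem pAb5 (t1 : S_T1) (t9 : S_T9) (c1 : S_C1) (c3 : S_C3) (c4 : S_C4) (c5 : S_C5)
    (ab4 : S_Ab4) : S_Ab5 := by
  intro K hne hK E hE hM
  obtain ⟨hcl, htru⟩ := ab4 K hne hK
  have h0K : (∅ : Set ℕ) ∈ K := empty_mem hcl hne
  have hT : Tru E ∅ ∈ K := htru E hE ∅ h0K
  have h0M : (∅ : Set ℕ) ∈ Secs E := by
    obtain ⟨X, hX⟩ := hM.1
    have h := hM.2 .fls (fun _ => 0) (fun _ => X) (fun _ => hX)
    have h2 : {n | eval (Secs E) ∅ .fls (nc n fun _ => 0) fun _ => X} = (∅ : Set ℕ) := by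
      ext n
      simp [eval]
    rwa [h2] at h
  obtain ⟨kU, hkU⟩ := row t1 E h0M (fun X => X ∈ UM (Secs E)) c5.2.1.choose
    (c5.2.1.choose_spec (Secs E) hM)
  obtain ⟨kC, hkC⟩ := row t1 E h0M (fun X => X ∈ CM (Secs E)) c5.1.choose
    (c5.1.choose_spec (Secs E) hM)
  have hgood : Good (UM (Secs E)) (CM (Secs E)) :=
    (c4 (Secs E) hM (CM (Secs E)) subset_rfl (c3 (Secs E) hM).1
      (fun c hc => ⟨_, (c3 (Secs E) hM).2 c hc⟩)).1
  have h0U : (∅ : Set ℕ) ∈ UM (Secs E) := empty_mem hgood.2.2 hgood.2.1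
  have h0C : (∅ : Set ℕ) ∉ CM (Secs E) := by
    intro h
    obtain ⟨⟨E', K', h'⟩, -⟩ := (c1 (Secs E) hM).1 _ h
    exact (t9 E' K').2.2.2.2 h'.symm
  have hUM : UM (Secs E) ⊆ Secs E := (c1 (Secs E) hM).2.2.1
  let V : ℕ → Set ℕ := sc E (fun _ => Tru E ∅)
  have hV : ∀ i, V i ∈ K := by
    intro i
    rcases i with _ | i
    · exact hE
    · exact hT
  have hE1 : {x | x ∈ E ∧ Rw (Tru E ∅) kU x.unpair.1} ∈ K := by
    have h : AS (fun _ V => {x | x ∈ V 0 ∧ Rw (V 1) kU x.unpair.1}) := by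
      unfold Rw
      aesop (config := { enableSimp := false })
    exact h.closed hcl (fun _ => 0) V hV
  refine ⟨_, hE1, ?_, ?_⟩
  · have hs : ∀ a, Rw (Tru E ∅) kU a →
        sec {x | x ∈ E ∧ Rw (Tru E ∅) kU x.unpair.1} a = sec E a := by
      intro a ha
      ext m
      simp only [mem_sec', Set.mem_ofPred_eq, Nat.unpair_pair]
      exact ⟨fun h => h.1, fun h => ⟨h, ha⟩⟩
    ext X
    constructor
    · rintro ⟨a, rfl⟩
      by_cases ha : Rw (Tru E ∅) kU a
      · rw [hs a ha]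
        exact (hkU a).mpr ha
      · have h2 : sec {x | x ∈ E ∧ Rw (Tru E ∅) kU x.unpair.1} a = ∅ := by
          ext m
          simp only [mem_sec', Set.mem_ofPred_eq, Nat.unpair_pair, Set.mem_empty_iff_false,
            iff_false]
          exact fun h => ha h.2
        rw [h2]
        exact h0U
    · intro hX
      obtain ⟨a, rfl⟩ := hUM hX
      exact ⟨a, (hs a ((hkU a).mp hX)).symm⟩
  · have h : AS (fun _ V => {a | Rw (V 1) kU a ∧ Rw (V 1) kC a}) := by
      unfold Rw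
      aesop (config := { enableSimp := false })
    have h1 := h.closed hcl (fun _ => 0) V hV
    have h2 : Kof (CM (Secs E)) {x | x ∈ E ∧ Rw (Tru E ∅) kU x.unpair.1} =
        {a | Rw (Tru E ∅) kU a ∧ Rw (Tru E ∅) kC a} := by
      ext a
      change sec {x | x ∈ E ∧ Rw (Tru E ∅) kU x.unpair.1} a ∈ CM (Secs E) ↔
        Rw (Tru E ∅) kU a ∧ Rw (Tru E ∅) kC a
      by_cases ha : Rw (Tru E ∅) kU a
      · have hs : sec {x | x ∈ E ∧ Rw (Tru E ∅) kU x.unpair.1} a = sec E a := by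
          ext m
          simp only [mem_sec', Set.mem_ofPred_eq, Nat.unpair_pair]
          exact ⟨fun h => h.1, fun h => ⟨h, ha⟩⟩
        rw [hs]
        exact ⟨fun h => ⟨ha, (hkC a).mp h⟩, fun h => (hkC a).mpr h.2⟩
      · have hs : sec {x | x ∈ E ∧ Rw (Tru E ∅) kU x.unpair.1} a = ∅ := by
          ext m
          simp only [mem_sec', Set.mem_ofPred_eq, Nat.unpair_pair, Set.mem_empty_iff_false,
            iff_false]
          exact fun h => ha h.2
        rw [hs]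
        exact ⟨fun h => absurd h h0C, fun h => absurd h.1 ha⟩
    rw [h2]
    exact h1

end B8d
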