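import Pool.Agent.Lib.MP_8dbd20_lc.Ab.Spec

/-! # MP_8dbd20_lc, block Ab: `S_Ab6`, the generic model is coded -/

namespace B8d

open Pool.Agent.Lib.Z2 (Str Dfn DF Cond NN NT IsI Uni Gen num re vl jn Nm evl IsCond cdc Ent)

private theorem as_jn6 {s t : (ℕ → ℕ) → (ℕ → Set ℕ) → Set ℕ} (hs : AS s) (ht : AS t) :
    AS (fun v V => jn (s v V) (t v V)) := by
  have hs1 : Ar (fun v V => v 0 / 2 ∈ s (fun i => v (i + 1)) V) :=
    Ar.mem (AN.div (AN.var 0) (AN.const 2)) (hs.ren (fun i => i + 1) (fun j => j))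
  have ht1 : Ar (fun v V => v 0 / 2 ∈ t (fun i => v (i + 1)) V) :=
    Ar.mem (AN.div (AN.var 0) (AN.const 2)) (ht.ren (fun i => i + 1) (fun j => j))
  have hp : Ar (fun v _ => v 0 % 2 = 0) := Ar.eqN (AN.mod (AN.var 0) (AN.const 2)) AN.zero
  refine Ar.congr ((hp.and hs1).or (hp.not.and ht1)) fun v V => ?_
  simp only [jn, Set.mem_ofPred_eq]
  by_cases h : v 0 % 2 = 0
  · simp [h]
  · simp [h]

private theorem ar_dk6 {T : (ℕ → ℕ) → (ℕ → Set ℕ) → Set ℕ}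
    {n b : (ℕ → ℕ) → (ℕ → Set ℕ) → ℕ} (hT : AS T) (k a : ℕ) (hn : AN n)
    (hb : AN b) : Ar (fun v V => Dk (T v V) k a (n v V) (b v V)) :=
  Ar.mem (AN.pair (AN.const k) (AN.pair (AN.pair hn (AN.const 0))
    (AN.pair (AN.add hb (AN.const 1)) (AN.pair (AN.const (a + 1)) (AN.const 0))))) hT

attribute [local aesop safe apply (transparency := reducible)] as_jn6 ar_dk6

theorem pAb6 (ab1 : S_Ab1) (ab4 : S_Ab4) (zIdl : Pool.Agent.Lib.Z2.S_Idl)
    (zNms : Pool.Agent.Lib.Z2.S_Nms) (zIFin : Pool.Agent.Lib.Z2.S_IFin) : S_Ab6 := by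
  intro K hne hK U C hG hS huni E hE hEU hKof g hg hgen
  have hcl := (ab4 K hne hK).1
  have hT : Tru E (Kof C E) ∈ K := (ab4 K hne hK).2 E hE _ hKof
  obtain ⟨h1, -⟩ := ab1 U C E hG hS hEU
  obtain ⟨k, a, hNm⟩ := h1 (fun _ X => Nm (SU U C) X)
    ((zIdl (SU U C) (ℕ × Set ℕ) (fun x => x.2) (DF.snd DF.id)).2)
  obtain ⟨k', a', hCd⟩ := h1 (fun n X => ∃ p : Cond, vl U p ∧ num p = n ∧ re p = X)
    (Dfn.exV (P := fun (x : ℕ × Set ℕ) (p : Cond) => num p = x.1 ∧ re p = x.2)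
      ((Dfn.eq (DF.num (DF.snd DF.id)) (DF.fst (DF.fst DF.id))).and
        (Dfn.eq (DF.re (DF.snd DF.id)) (DF.snd (DF.fst DF.id)))))
  set S := SU U C with hSdef
  set T := Tru E (Kof C E) with hTdef
  set G := Gof U E g with hGdef
  -- evaluation of names
  have hev : ∀ b n, n ∈ evl S G (sec E b) ↔ ∃ i, ∃ q ∈ g, Dk T k' a' q.unpair.1 q.unpair.2 ∧
      sec (sec E b) (Nat.pair n i) = jn {q.unpair.1} (sec E q.unpair.2) := by
    intro b n
    constructor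
    · rintro ⟨p, ⟨-, i, hi⟩, q, hq, hv, hn, hr⟩
      refine ⟨i, q, hq, (hCd _ _).mp ⟨p, hv, hn, hr⟩, ?_⟩
      rw [hi, cdc, hn, hr]
    · rintro ⟨i, q, hq, hc, hi⟩
      obtain ⟨p, hv, hn, hr⟩ := (hCd _ _).mpr hc
      have hGp : G p := ⟨q, hq, hv, hn, hr⟩
      refine ⟨p, ⟨hgen.cond p hGp, i, ?_⟩, hGp⟩
      rw [hi, cdc, hn, hr]
  have hAS : AS (fun _ V => {x | Dk (V 1) k a 0 x.unpair.1 ∧ ∃ i q, q ∈ V 2 ∧
      Dk (V 1) k' a' q.unpair.1 q.unpair.2 ∧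
      sec (sec (V 0) x.unpair.1) (Nat.pair x.unpair.2 i) =
        jn {q.unpair.1} (sec (V 0) q.unpair.2)}) := by
    aesop (config := { enableSimp := false })
  have hmem := hAS.closed hcl (fun _ => 0) (sc E (sc T (fun _ => g))) (by
    intro i
    rcases i with _ | _ | i
    · exact hE
    · exact hT
    · exact hg)
  refine ⟨_, hmem, ?_⟩
  have h0 : (∅ : Set ℕ) ∈ NN S G := by
    obtain ⟨T₀, hT₀, -⟩ := zIFin S []
    have hz := zNms S Gam huni G hgen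
    exact hz.1 T₀ hT₀ _ (hz.2.2.1 T₀ ∅ (hS.pu _ hS.pe))
  have hsec : ∀ b, Nm S (sec E b) →
      sec {x | Dk T k a 0 x.unpair.1 ∧ ∃ i q, q ∈ g ∧
        Dk T k' a' q.unpair.1 q.unpair.2 ∧
        sec (sec E x.unpair.1) (Nat.pair x.unpair.2 i) =
          jn {q.unpair.1} (sec E q.unpair.2)} b = evl S G (sec E b) := by
    intro b hb
    ext n
    rw [hev, mem_sec', Set.mem_ofPred_eq, Nat.unpair_pair]
    constructor
    · rintro ⟨-, i, q, hq, h2, h3⟩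
      exact ⟨i, q, hq, h2, h3⟩
    · rintro ⟨i, q, hq, h2, h3⟩
      exact ⟨(hNm 0 b).mp hb, i, q, hq, h2, h3⟩
  change Secs {x | Dk T k a 0 x.unpair.1 ∧ ∃ i q, q ∈ g ∧
      Dk T k' a' q.unpair.1 q.unpair.2 ∧
      sec (sec E x.unpair.1) (Nat.pair x.unpair.2 i) =
        jn {q.unpair.1} (sec E q.unpair.2)} = NN S G
  ext X
  constructor
  · rintro ⟨b, rfl⟩
    by_cases hb : Nm S (sec E b)
    · rw [hsec b hb]
      exact ⟨_, hb, rfl⟩
    · have h2 : sec {x | Dk T k a 0 x.unpair.1 ∧ ∃ i q, q ∈ g ∧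
          Dk T k' a' q.unpair.1 q.unpair.2 ∧
          sec (sec E x.unpair.1) (Nat.pair x.unpair.2 i) =
            jn {q.unpair.1} (sec E q.unpair.2)} b = ∅ := by
        ext n
        rw [mem_sec', Set.mem_ofPred_eq, Nat.unpair_pair]
        simp only [Set.mem_empty_iff_false, iff_false]
        rintro ⟨h3, -⟩
        exact hb ((hNm 0 b).mpr h3)
      rw [h2]
      exact h0
  · rintro ⟨σ, hσ, rfl⟩
    have hσU : σ ∈ Secs E := by
      rw [hEU]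
      exact hσ.1
    obtain ⟨b, rfl⟩ := hσU
    exact ⟨b, (hsec b hσ).symm⟩

end B8d
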