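import Pool.Agent.Lib.MP_8dbd20_lc.Ab.Spec

namespace B8d

open Pool.Agent.Lib.Z2 (Str Dfn DF Fm IsZ2 IsBeta HasAC HasPi12DC Node inn Cond IsI NT NN gen Uni Gen
  sg tr Shp num re vl jn Nm evl IsCond Le cdc Ent)

theorem Ab7_gen (br8 : S_Br8) (c3 : S_C3) (c4 : S_C4) (univ : S_Univ) (fi9 : S_Fi9)
    (ab2 : S_Ab2) (ab3 : S_Ab3) (ab4 : S_Ab4) (ab5 : S_Ab5) (ab6 : S_Ab6)
    (zGenEx : Pool.Agent.Lib.Z2.S_GenEx) (zTriv : Pool.Agent.Lib.Z2.S_Triv)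
    (P : Set (Set ℕ) → Set (Set ℕ) → Prop)
    (h0 : ∀ M : Set (Set ℕ), M.Countable → Mod2 M → ∀ G, Gen (SU (UM M) (CM M)) Gam G →
      P M (NN (SU (UM M) (CM M)) G)) :
    ∀ K : Set (Set ℕ), K.Nonempty → IsBeta K → ∀ E ∈ K, IsZ2 (Secs E) →
      ∃ E' ∈ K, P (Secs E) (Secs E') := by
  intro K hK hbeta E hE hZ2
  have hne : (Secs E).Nonempty := ⟨sec E 0, 0, rfl⟩
  have hM : Mod2 (Secs E) := (br8 (Secs E) hne).1.1 hZ2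
  have hB : BetaI K := (br8 K hK).2.1 hbeta
  have hcount : (Secs E).Countable := by
    have h1 : Secs E = Set.range (fun a => sec E a) := by
      ext X
      exact ⟨fun ⟨a, ha⟩ => ⟨a, ha.symm⟩, fun ⟨a, ha⟩ => ⟨a, ha.symm⟩⟩
    rw [h1]
    exact Set.countable_range _
  obtain ⟨E₁, hE₁, hSecs, hKof⟩ := ab5 K hK hB E hE hM
  have hUniv := univ (Secs E) hM
  have hUni : Uni (SU (UM (Secs E)) (CM (Secs E))) Gam :=
    fi9 _ _ _ hUniv (hcount.mono hUniv.um)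
  have hgood : Good (UM (Secs E)) (CM (Secs E)) :=
    (c4 _ hM (CM (Secs E)) subset_rfl (c3 _ hM).1 (fun c hc => ⟨_, (c3 _ hM).2 c hc⟩)).1
  have hgoodS : GoodS (SU (UM (Secs E)) (CM (Secs E))) := hUniv.good
  haveI : Pool.Agent.Lib.Z2.Good (SU (UM (Secs E)) (CM (Secs E))) := hgoodS
  obtain ⟨kc, ac, kl, al, h1, h2⟩ := ab3 _ _ E₁ hgood hgoodS hUni.gm hSecs
  obtain ⟨G, hG, -⟩ := zGenEx (SU (UM (Secs E)) (CM (Secs E))) Gam hUni _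
    (zTriv (SU (UM (Secs E)) (CM (Secs E))) Gam).1
  have hT : Tru E₁ (Kof (CM (Secs E)) E₁) ∈ K := (ab4 K hK hB).2 E₁ hE₁ _ hKof
  have hAr : Ar (fun v V => GnA (V 1) (V 2) (V 0) (v 0) (v 1) (v 2) (v 3)) :=
    Ar.ren ab2 (fun i => i) (fun j => match j with
      | 0 => 1
      | 1 => 2
      | _ => 0)
  obtain ⟨g, hg, hgA⟩ := hB _ hAr (nc kc (nc ac (nc kl (fun _ => al))))
    (sc E₁ (fun _ => Tru E₁ (Kof (CM (Secs E)) E₁)))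
    (fun i => by
      cases i with
      | zero => exact hE₁
      | succ i => exact hT) ⟨_, h2 G hG⟩
  have hgen := h1 g hgA
  obtain ⟨E', hE', hS'⟩ := ab6 K hK hB _ _ hgood hgoodS hUni E₁ hE₁ hSecs hKof g hg hgen
  refine ⟨E', hE', ?_⟩
  rw [hS']
  exact h0 _ hcount hM _ hgen

theorem pAb7 (br8 : S_Br8) (c3 : S_C3) (c4 : S_C4) (univ : S_Univ) (fi9 : S_Fi9) (ab0 : S_Ab0)
    (ab2 : S_Ab2) (ab3 : S_Ab3) (ab4 : S_Ab4) (ab5 : S_Ab5) (ab6 : S_Ab6)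
    (zGenEx : Pool.Agent.Lib.Z2.S_GenEx) (zTriv : Pool.Agent.Lib.Z2.S_Triv) : S_Ab7 :=
  fun hedge => Ab7_gen br8 c3 c4 univ fi9 ab2 ab3 ab4 ab5 ab6 zGenEx zTriv Props (ab0 hedge)

end B8d
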