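import Pool.Agent.Lib.MP_8dbd20_lc.Fi.Spec

/-!
# MP_8dbd20_lc, block Ab: the theorem holds inside every β-model

If `K` is any β-model and `E ∈ K` codes a β-model `Secs E` of `Z_2`, then some `E' ∈ K` codes a
β-model of `Z_2 + AC + ¬ Π¹₂-DC`.  (The generic filter is found in `K` by a Σ¹₁ statement.)
-/

set_option linter.unusedVariables false

namespace B8d

open Pool.Agent.Lib.Z2 (Str Dfn DF Fm IsZ2 IsBeta HasAC HasPi12DC Node inn Cond IsI NT NN gen Uni Gen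
  sg tr Shp num re vl jn Nm evl IsCond Le cdc Ent)

/-- the edge theorem of block Un, as a hypothesis -/
def EdgeThm : Prop := ∀ M U C G, Univ M U C → Uni (SU U C) Gam → Gen (SU U C) Gam G → Edges U C G

/-- properties of the generic model relative to `M` -/
def Props (M N : Set (Set ℕ)) : Prop := N.Nonempty ∧ IsZ2 N ∧ HasAC N ∧ ¬ HasPi12DC N ∧
  (IsBeta M → IsBeta N) ∧ ∀ R ∈ N, CodesWO R → ∃ R' ∈ M, CodesWO R' ∧ IsoO R R'

/-- Ab0. Every generic filter over a countable model works.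
PROOF. As Fi11, with `M' = M` and the given `G`: `Univ M (UM M) (CM M)` (S_Univ), `UM M ⊆ M` countable, Fi9,
`EdgeThm`, so `Sit M (UM M) (CM M) G`; `Z2.S_Z2`, `Z2.S_Nms` (nonempty), `Z2.S_Ac`, Fi8, Fi10, Be8 with Fi3,
Br8. -/
def S_Ab0 : Prop := EdgeThm → ∀ M : Set (Set ℕ), M.Countable → Mod2 M → ∀ G,
  Gen (SU (UM M) (CM M)) Gam G → Props M (NN (SU (UM M) (CM M)) G)

/-- row of the truth set: formula `k`, first number `n`, first set = section `b`, all other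
parameters given by the index `a` (second set = section `a`) -/
def Dk (T : Set ℕ) (k a n b : ℕ) : Prop :=
  Nat.pair k (Nat.pair (Nat.pair n 0) (Nat.pair (b + 1) (Nat.pair (a + 1) 0))) ∈ T

/-- the set of indices of members of `C` -/
def Kof (C : Set (Set ℕ)) (E : Set ℕ) : Set ℕ := {a | sec E a ∈ C}

/-- Ab1. Definable relations are rows of the truth set, and conversely.
PROOF. Let `T = Tru E (Kof C E)`, a truth set of `(U, C)`: `Secs E = U`, `CK E (Kof C E) = C` (as `C ⊆ U`).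
(1) Br6 (2) gives `ψ`, `A ∈ U`, `P n X ↔ eval U C ψ (nc n 0) (sc X fun _ => A)`; by T2 only finitely many
set variables matter, but the row only gives the values `X, A, ∅, ∅, …`: replace in `ψ` all set
variables `j ≥ 1` by `1` (`F.ren id ρ`, `ρ 0 = 0`, `ρ (j+1) = 1`; `eval_ren`). Let `ψ'` be the result and
`k` its code (T1), `A = sec E a`. The row `Dk T k a n b` evaluates `ψ'` at the numbers `n, 0, 0, …`
(`get`), the sets `ix E (b+1) = sec E b`, `sec E a`, `∅, …`. (2) The predicate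
`fun n X => eval U C (dec k) (nc n 0) (sc X (sc (sec E a) fun _ => ∅))` is `Dfn` by Br3 (constants:
`DF` of a constant real of `U = Pm`, see `Z2.DF.const…` in Ops.lean; `∅`). -/
def S_Ab1 : Prop := ∀ (U C : Set (Set ℕ)) (E : Set ℕ), Good U C → GoodS (SU U C) → Secs E = U →
  (∀ P : ℕ → Set ℕ → Prop, Dfn (SU U C) (fun x : ℕ × Set ℕ => P x.1 x.2) →
    ∃ k a, ∀ n b, (P n (sec E b) ↔ Dk (Tru E (Kof C E)) k a n b)) ∧
  (∀ k a, ∃ P : ℕ → Set ℕ → Prop, Dfn (SU U C) (fun x : ℕ × Set ℕ => P x.1 x.2) ∧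
    ∀ n b, (P n (sec E b) ↔ Dk (Tru E (Kof C E)) k a n b))

/-- `q` codes the condition `p`: `q = ⟨num p, b⟩` with `sec E b = re p` -/
def CCd (U : Set (Set ℕ)) (E : Set ℕ) (q : ℕ) (p : Cond) : Prop :=
  vl U p ∧ num p = q.unpair.1 ∧ re p = sec E q.unpair.2
/-- filter of conditions coded by `g` -/
def Gof (U : Set (Set ℕ)) (E g : Set ℕ) (p : Cond) : Prop := ∃ q ∈ g, CCd U E q p
/-- the codes of the elements of `G` -/
def gof (U : Set (Set ℕ)) (E : Set ℕ) (G : Cond → Prop) : Set ℕ := {q | ∃ p, CCd U E q p ∧ G p}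

/-- `q` is a code of a condition (formula `kc`, parameter `ac`) -/
def cnd (T : Set ℕ) (kc ac q : ℕ) : Prop := Dk T kc ac q.unpair.1 q.unpair.2
/-- `q` is stronger than `q'` (formula `kl`, parameter `al`) -/
def lec (E T : Set ℕ) (kl al q q' : ℕ) : Prop :=
  ∃ b, sec E b = jn (sec E q.unpair.2) (sec E q'.unpair.2) ∧
    Dk T kl al (Nat.pair q.unpair.1 q'.unpair.1) b

/-- `g` codes a generic filter (arithmetical in `E, T, g`) -/
def GnA (E T g : Set ℕ) (kc ac kl al : ℕ) : Prop :=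
  (∀ q ∈ g, cnd T kc ac q) ∧
  (∀ q ∈ g, ∀ q', cnd T kc ac q' → lec E T kl al q q' → q' ∈ g) ∧
  (∀ q ∈ g, ∀ q' ∈ g, ∃ r ∈ g, lec E T kl al r q ∧ lec E T kl al r q') ∧
  ∀ k a, (∀ q, cnd T kc ac q → ∃ q', cnd T kc ac q' ∧ lec E T kl al q' q ∧
      Dk T k a q'.unpair.1 q'.unpair.2) → ∃ q ∈ g, Dk T k a q.unpair.1 q.unpair.2

/-- Ab2. PROOF. Unfold, aesop (`jn` is an arithmetical set term: its membership is a case
distinction on the parity). -/
def S_Ab2 : Prop := Ar (fun v V => GnA (V 0) (V 1) (V 2) (v 0) (v 1) (v 2) (v 3))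

/-- Ab3. `GnA` means generic.
PROOF. Facts on codes: `p : Cond` has `num p = ⟨encode p.1, p.2.length⟩`, `re p = jn ∅ (lre p.2)` (instances in
Z2/Shape.lean), `vl U p ↔ ∀ c ∈ p.2, c ∈ U`; a code `q` codes at most one `p` (`Shp.inj`), every `p` with
`vl U p` has a code (`re p ∈ U = Secs E`); conditions are valid (`C ⊆ U`). `kc, ac`: Ab1 for
`P n X := ∃ p, vl U p ∧ IsCond S p ∧ num p = n ∧ re p = X` (Dfn: `Dfn.exV`, `Z2.S_Ic`, `num` and `re` of a
condition are `DF`: `DF.enc`, `DF.len`, `DF.lre`, `DF.jn`). `kl, al`: Ab1 for `P n X := ∃ p p', valid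
conditions, n = ⟨num p, num p'⟩, X = jn (re p) (re p'), Le Gam p p'` (`Z2.S_Le`). So for codes `q, q'` of
`p, p'`: `cnd q ↔ IsCond p` and `lec q q' ↔ Le Gam p p'`; and `cnd q` implies that `q` codes some condition.
A `Dfn` predicate `D` on `Cond` gives `k, a` with `D p ↔ Dk T k a q.1 q.2` for every code `q` of `p` (Ab1
for `P n X := ∃ p, vl U p ∧ num p = n ∧ re p = X ∧ D p`), and conversely every row gives a `Dfn` predicate
on `Cond` (`p ↦ P (num p) (re p)`). With these translations the four clauses of `GnA` are the four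
clauses of `Gen`; different codes of the same `p` are mutually `lec` (`Z2.S_Refl`), so `g` contains all
or none of them. -/
def S_Ab3 : Prop := ∀ (U C : Set (Set ℕ)) (E : Set ℕ), Good U C → GoodS (SU U C) →
  DF (SU U C) Gam → Secs E = U → ∃ kc ac kl al,
    (∀ g, GnA E (Tru E (Kof C E)) g kc ac kl al → Gen (SU U C) Gam (Gof U E g)) ∧
    (∀ G, Gen (SU U C) Gam G → GnA E (Tru E (Kof C E)) (gof U E G) kc ac kl al)

/-- Ab4. Closure properties of β-models.
PROOF. `{n | R (nc n v) V}` is the only `X` with `∀ n, (n ∈ X ↔ R (nc n v) V)`, an arithmetical condition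
(parameters `V i ∈ K`), so it is in `K` by `BetaI`. `Tru E K'` is the only `X` with `X = Tru E K'`, arithmetical
by T5. -/
def S_Ab4 : Prop := ∀ K : Set (Set ℕ), K.Nonempty → BetaI K →
  ArClosed K ∧ ∀ E ∈ K, ∀ K' ∈ K, Tru E K' ∈ K

/-- Ab5. The universe of the coded model is coded.
PROOF. `M = Secs E`. By C5 there are formulas `ψU`, `ψC` (codes `kU`, `kC`) with `X ∈ UM M ↔ eval M ∅ ψU v V`,
`V 0 = X`, for all valuations in `M`. The truth set `T = Tru E ∅ ∈ K` (Ab4) describes `(M, ∅)`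
(`CK E ∅ = ∅`). `∅ ∈ M` and the other variables are `ix E 0 = ∅`. So `AU = {a | sec E a ∈ UM M} =
{a | ⟨kU,⟨0,⟨a+1,0⟩⟩⟩ ∈ T} ∈ K` and the same for `C`. `E₁ = {x | x ∈ E ∧ x.1 ∈ AU}`: the sections are the
`sec E a`, `a ∈ AU`, and possibly `∅`, which is in `UM M` (`Good (UM M) (CM M)`: C4 with C3).
`{a | sec E₁ a ∈ CM M} = {a | a ∈ AU ∧ sec E a ∈ CM M}` (codes are not empty, T9, C1). -/
def S_Ab5 : Prop := ∀ K : Set (Set ℕ), K.Nonempty → BetaI K → ∀ E ∈ K, Mod2 (Secs E) →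
  ∃ E₁ ∈ K, Secs E₁ = UM (Secs E) ∧ Kof (CM (Secs E)) E₁ ∈ K

/-- Ab6. The generic model is coded.
PROOF. `T = Tru E (Kof C E) ∈ K` (Ab4). `Nm (SU U C)` is a `Dfn` predicate on reals (`Z2.S_Idl`, `Z2.S_Sup`,
`Dfn.exR`), so Ab1 (with `P n X := Nm X`) gives `k, a₀` with `Nm (sec E a) ↔ Dk T k a₀ 0 a`. For a filter
`G = Gof U E g` of conditions: `evl S G σ = {n | ∃ i, ∃ q ∈ g, sec σ ⟨n,i⟩ = jn {q.1} (sec E q.2)}` (`cdc p =
jn {num p} (re p)`; `G p → IsCond p` by `Gen.cond`). Let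
`E' = {x | Dk T k a₀ 0 x.1 ∧ ∃ i, ∃ q ∈ g, sec (sec E x.1) ⟨x.2,i⟩ = jn {q.1} (sec E q.2)}`, arithmetical in
`E, T, g`. Its sections are the `evl S G σ` for names `σ`, and possibly `∅`, which is in
`NN` (`Z2.S_Nms`: `U ⊆ NN`). -/
def S_Ab6 : Prop := ∀ K : Set (Set ℕ), K.Nonempty → BetaI K → ∀ (U C : Set (Set ℕ)), Good U C →
  GoodS (SU U C) → Uni (SU U C) Gam → ∀ E ∈ K, Secs E = U → Kof C E ∈ K → ∀ g ∈ K,
  Gen (SU U C) Gam (Gof U E g) → ∃ E' ∈ K, Secs E' = NN (SU U C) (Gof U E g)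

/-- Ab7. THE THEOREM INSIDE A β-MODEL.
PROOF. `M = Secs E` is countable, nonempty, `Mod2 M` (Br8), `BetaI K` (Br8). Ab5: `E₁`. `Univ M (UM M) (CM M)`
(S_Univ), `Uni` (Fi9), `Good` (C3, C4), Ab3: numbers `kc ac kl al`. A generic `G` exists (`Z2.S_GenEx`,
`Z2.S_Triv`), so `∃ g, GnA E₁ T g kc ac kl al` with `T = Tru E₁ (Kof C E₁) ∈ K` (Ab4). This is a Σ¹₁
statement with parameters `E₁, T ∈ K` (Ab2), so such a `g` exists in `K` (`BetaI`; substitute the variables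
with `Ar.subst` so that `g` is the set variable `0`). By Ab3 `Gof U E₁ g` is generic, Ab6: `E' ∈ K` with
`Secs E' = NN …`, and Ab0 gives the properties. -/
def S_Ab7 : Prop := EdgeThm → ∀ K : Set (Set ℕ), K.Nonempty → IsBeta K → ∀ E ∈ K, IsZ2 (Secs E) →
  ∃ E' ∈ K, Props (Secs E) (Secs E')

end B8d
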